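import Pool.Agent.Work.MP_1ce445_low.Interface2

set_option autoImplicit false

/-!
The general hub system (MP_1ce445_co): `m + 1` singleton types and the types `{0, i+1}`, overlaps `y i > 0` arbitrary with
sum `(m + 1) D - 1`; `R ^ 2 = D ∑ y - ∑ y ^ 2`; `{0, i+1}` has weight `y i (D - y i) / R`.
-/

namespace Pool.Agent.Work.MP_1ce445_low

open Finset Pool.Agent.Work.MP_1ce445_co_56 Pool.Agent.Work.MP_1ce445_lin

/-- The types. -/
def HUBG_T (m : ℕ) : Unit ⊕ (Fin m ⊕ Fin m) → Finset (Fin (m + 1))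
  | Sum.inl _ => {0}
  | Sum.inr (Sum.inl i) => {i.succ}
  | Sum.inr (Sum.inr i) => {0, i.succ}

/-- The weights. -/
def HUBG_w (m : ℕ) (D R : ℝ) (a b : Fin m → ℝ) : Unit ⊕ (Fin m ⊕ Fin m) → ℝ
  | Sum.inl _ => D - R
  | Sum.inr (Sum.inl i) => D - a i
  | Sum.inr (Sum.inr i) => b i

/-- The graph. -/
def HUBG_x (m : ℕ) (D R : ℝ) (a b : Fin m → ℝ) :
    Unit ⊕ (Fin m ⊕ Fin m) → Unit ⊕ (Fin m ⊕ Fin m) → ℝ
  | Sum.inl _, Sum.inl _ => (D - R) * (D - R)
  | Sum.inl _, Sum.inr (Sum.inl _) => 0
  | Sum.inl _, Sum.inr (Sum.inr j) => (D - R) * b j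
  | Sum.inr (Sum.inl _), Sum.inl _ => 0
  | Sum.inr (Sum.inl i), Sum.inr (Sum.inl j) => if i = j then (D - a i) * (D - a i) else 0
  | Sum.inr (Sum.inl i), Sum.inr (Sum.inr j) => if i = j then (D - a i) * a i else 0
  | Sum.inr (Sum.inr i), Sum.inl _ => (D - R) * b i
  | Sum.inr (Sum.inr i), Sum.inr (Sum.inl j) => if i = j then (D - a i) * a i else 0
  | Sum.inr (Sum.inr _), Sum.inr (Sum.inr _) => 0

/-- The hypotheses. -/
structure HUBG_H (m : ℕ) (D R : ℝ) (a b : Fin m → ℝ) : Prop where
  sa : ∑ i, a i = ((m : ℝ) + 1) * D - 1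
  sb : ∑ i, b i = R
  a0 : ∀ i, 0 < a i
  ab : ∀ i, a i ≤ b i
  hR : R < D
  eq : ∀ i, R * b i = a i * (D - a i)
  aD : ∀ i, 0 < D - a i

/-- The type system. -/
def HUBG_S (m : ℕ) (D R : ℝ) (a b : Fin m → ℝ) (H : HUBG_H m D R a b) :
    TSys (Unit ⊕ (Fin m ⊕ Fin m)) (m + 1) D where
  T := HUBG_T m
  w := HUBG_w m D R a b
  x := HUBG_x m D R a b
  ne := by
    rintro (_ | i | i)
    · exact ⟨0, by simp [HUBG_T]⟩
    · exact ⟨i.succ, by simp [HUBG_T]⟩
    · exact ⟨0, by simp [HUBG_T]⟩
  w_pos := by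
    rintro (_ | i | i)
    · show 0 < D - R
      linarith [H.hR]
    · show 0 < D - a i
      exact H.aD i
    · show 0 < b i
      exact lt_of_lt_of_le (H.a0 i) (H.ab i)
  w_sum := by
    rw [Fintype.sum_sum_type, Fintype.sum_sum_type, Fintype.sum_unique]
    simp only [HUBG_w]
    rw [Finset.sum_sub_distrib, H.sb, H.sa]
    simp only [sum_const, card_univ, Fintype.card_fin, nsmul_eq_mul]
    ring
  symm := by
    rintro (_ | i | i) (_ | j | j)
    · rfl
    · rfl
    · rfl
    · rfl
    · show (if i = j then (D - a i) * (D - a i) else 0) =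
        (if j = i then (D - a j) * (D - a j) else 0)
      by_cases h : i = j
      · rw [if_pos h, if_pos h.symm, h]
      · rw [if_neg h, if_neg (Ne.symm h)]
    · show (if i = j then (D - a i) * a i else 0) = (if j = i then (D - a j) * a j else 0)
      by_cases h : i = j
      · rw [if_pos h, if_pos h.symm, h]
      · rw [if_neg h, if_neg (Ne.symm h)]
    · rfl
    · show (if i = j then (D - a i) * a i else 0) = (if j = i then (D - a j) * a j else 0)
      by_cases h : i = j
      · rw [if_pos h, if_pos h.symm, h]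
      · rw [if_neg h, if_neg (Ne.symm h)]
    · rfl
  nonneg := by
    have hb : ∀ i, 0 < b i := fun i => lt_of_lt_of_le (H.a0 i) (H.ab i)
    have hw : 0 < D - R := by linarith [H.hR]
    rintro (_ | i | i) (_ | j | j)
    · show 0 ≤ (D - R) * (D - R)
      exact mul_self_nonneg _
    · exact le_refl (0 : ℝ)
    · show 0 ≤ (D - R) * b j
      exact (mul_pos hw (hb j)).le
    · exact le_refl (0 : ℝ)
    · show 0 ≤ (if i = j then (D - a i) * (D - a i) else 0)
      split_ifs
      · exact mul_self_nonneg _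
      · exact le_refl 0
    · show 0 ≤ (if i = j then (D - a i) * a i else 0)
      split_ifs
      · exact (mul_pos (H.aD i) (H.a0 i)).le
      · exact le_refl 0
    · show 0 ≤ (D - R) * b i
      exact (mul_pos hw (hb i)).le
    · show 0 ≤ (if i = j then (D - a i) * a i else 0)
      split_ifs
      · exact (mul_pos (H.aD i) (H.a0 i)).le
      · exact le_refl 0
    · exact le_refl (0 : ℝ)
  le := by
    have hb : ∀ i, 0 < b i := fun i => lt_of_lt_of_le (H.a0 i) (H.ab i)
    have hw : 0 < D - R := by linarith [H.hR]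
    have e3 : ∀ i, (D - a i) * a i ≤ (D - a i) * b i := fun i =>
      mul_le_mul_of_nonneg_left (H.ab i) (H.aD i).le
    rintro (_ | i | i) (_ | j | j)
    · exact le_refl ((D - R) * (D - R))
    · show (0 : ℝ) ≤ (D - R) * (D - a j)
      exact (mul_pos hw (H.aD j)).le
    · exact le_refl ((D - R) * b j)
    · show (0 : ℝ) ≤ (D - a i) * (D - R)
      exact (mul_pos (H.aD i) hw).le
    · show (if i = j then (D - a i) * (D - a i) else 0) ≤ (D - a i) * (D - a j)
      split_ifs with h
      · rw [h]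
      · exact (mul_pos (H.aD i) (H.aD j)).le
    · show (if i = j then (D - a i) * a i else 0) ≤ (D - a i) * b j
      split_ifs with h
      · rw [← h]
        exact e3 i
      · exact (mul_pos (H.aD i) (hb j)).le
    · show (D - R) * b i ≤ b i * (D - R)
      rw [mul_comm]
    · show (if i = j then (D - a i) * a i else 0) ≤ b i * (D - a j)
      split_ifs with h
      · rw [← h, mul_comm (b i)]
        exact e3 i
      · exact (mul_pos (hb i) (H.aD j)).le
    · show (0 : ℝ) ≤ b i * b j
      exact (mul_pos (hb i) (hb j)).le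
  zero := by
    rintro (_ | i | i) (_ | j | j) h
    · exfalso
      simp [HUBG_T] at h
    · rfl
    · exfalso
      simp [HUBG_T] at h
    · rfl
    · show (if i = j then (D - a i) * (D - a i) else 0) = 0
      by_cases hij : i = j
      · exfalso
        rw [hij] at h
        simp [HUBG_T] at h
      · rw [if_neg hij]
    · show (if i = j then (D - a i) * a i else 0) = 0
      by_cases hij : i = j
      · exfalso
        rw [hij] at h
        simp [HUBG_T] at h
      · rw [if_neg hij]
    · exfalso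
      simp [HUBG_T] at h
    · show (if i = j then (D - a i) * a i else 0) = 0
      by_cases hij : i = j
      · exfalso
        rw [hij] at h
        simp [HUBG_T] at h
      · rw [if_neg hij]
    · rfl
  row := by
    rintro (_ | i | i)
    · rw [Fintype.sum_sum_type, Fintype.sum_sum_type, Fintype.sum_unique]
      show (D - R) * (D - R) + (∑ _j : Fin m, (0 : ℝ) + ∑ j : Fin m, (D - R) * b j) =
        D * (D - R)
      rw [← Finset.mul_sum, H.sb, sum_const_zero]
      ring
    · rw [Fintype.sum_sum_type, Fintype.sum_sum_type, Fintype.sum_unique]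
      show 0 + (∑ j : Fin m, (if i = j then (D - a i) * (D - a i) else 0) +
        ∑ j : Fin m, (if i = j then (D - a i) * a i else 0)) = D * (D - a i)
      simp only [sum_ite_eq, mem_univ, if_true]
      ring
    · rw [Fintype.sum_sum_type, Fintype.sum_sum_type, Fintype.sum_unique]
      show (D - R) * b i + (∑ j : Fin m, (if i = j then (D - a i) * a i else 0) +
        ∑ _j : Fin m, (0 : ℝ)) = D * b i
      simp only [sum_ite_eq, mem_univ, if_true, sum_const_zero]
      linear_combination -(H.eq i)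

theorem HUBG_p0 (m : ℕ) (D R : ℝ) (a b : Fin m → ℝ) (H : HUBG_H m D R a b) :
    (HUBG_S m D R a b H).p 0 = D := by
  unfold TSys.p
  rw [Fintype.sum_sum_type, Fintype.sum_sum_type, Fintype.sum_unique]
  have e1 : ∀ j : Fin m, (if (0 : Fin (m + 1)) ∈ HUBG_T m (Sum.inr (Sum.inl j)) then
      HUBG_w m D R a b (Sum.inr (Sum.inl j)) else 0) = 0 := by
    intro j
    rw [if_neg]
    intro h
    rw [HUBG_T, mem_singleton] at h
    exact absurd h.symm (Fin.succ_ne_zero _)
  have e2 : ∀ j : Fin m, (if (0 : Fin (m + 1)) ∈ HUBG_T m (Sum.inr (Sum.inr j)) then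
      HUBG_w m D R a b (Sum.inr (Sum.inr j)) else 0) = b j := by
    intro j
    rw [if_pos]
    · rfl
    · rw [HUBG_T]
      exact mem_insert_self _ _
  have e0 : (if (0 : Fin (m + 1)) ∈ HUBG_T m (Sum.inl ()) then
      HUBG_w m D R a b (Sum.inl ()) else 0) = D - R := by
    rw [if_pos]
    · rfl
    · rw [HUBG_T]
      exact mem_singleton_self _
  show (if (0 : Fin (m + 1)) ∈ HUBG_T m (Sum.inl ()) then
      HUBG_w m D R a b (Sum.inl ()) else 0) +
    (∑ j : Fin m, (if (0 : Fin (m + 1)) ∈ HUBG_T m (Sum.inr (Sum.inl j)) then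
      HUBG_w m D R a b (Sum.inr (Sum.inl j)) else 0) +
    ∑ j : Fin m, (if (0 : Fin (m + 1)) ∈ HUBG_T m (Sum.inr (Sum.inr j)) then
      HUBG_w m D R a b (Sum.inr (Sum.inr j)) else 0)) = D
  rw [e0, Finset.sum_congr rfl (fun j _ => e1 j), Finset.sum_congr rfl (fun j _ => e2 j),
    H.sb, sum_const_zero]
  ring

theorem HUBG_p1 (m : ℕ) (D R : ℝ) (a b : Fin m → ℝ) (H : HUBG_H m D R a b)
    (i : Fin m) :
    (HUBG_S m D R a b H).p i.succ = D - a i + b i := by
  unfold TSys.p
  rw [Fintype.sum_sum_type, Fintype.sum_sum_type, Fintype.sum_unique]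
  have e1 : ∀ j : Fin m, (if (i.succ : Fin (m + 1)) ∈ HUBG_T m (Sum.inr (Sum.inl j)) then
      HUBG_w m D R a b (Sum.inr (Sum.inl j)) else 0) = if i = j then D - a i else 0 := by
    intro j
    by_cases hij : i = j
    · rw [if_pos hij, if_pos, hij]
      · rfl
      · rw [HUBG_T, mem_singleton, hij]
    · rw [if_neg hij, if_neg]
      rw [HUBG_T, mem_singleton]
      intro h
      exact hij (Fin.succ_injective _ h)
  have e2 : ∀ j : Fin m, (if (i.succ : Fin (m + 1)) ∈ HUBG_T m (Sum.inr (Sum.inr j)) then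
      HUBG_w m D R a b (Sum.inr (Sum.inr j)) else 0) = if i = j then b i else 0 := by
    intro j
    by_cases hij : i = j
    · rw [if_pos hij, if_pos, hij]
      · rfl
      · rw [HUBG_T, mem_insert, mem_singleton, hij]
        exact Or.inr rfl
    · rw [if_neg hij, if_neg]
      rw [HUBG_T, mem_insert, mem_singleton]
      rintro (h | h)
      · exact absurd h (Fin.succ_ne_zero _)
      · exact hij (Fin.succ_injective _ h)
  have e0 : (if (i.succ : Fin (m + 1)) ∈ HUBG_T m (Sum.inl ()) then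
      HUBG_w m D R a b (Sum.inl ()) else 0) = 0 := by
    rw [if_neg]
    rw [HUBG_T, mem_singleton]
    exact Fin.succ_ne_zero _
  show (if (i.succ : Fin (m + 1)) ∈ HUBG_T m (Sum.inl ()) then
      HUBG_w m D R a b (Sum.inl ()) else 0) +
    (∑ j : Fin m, (if (i.succ : Fin (m + 1)) ∈ HUBG_T m (Sum.inr (Sum.inl j)) then
      HUBG_w m D R a b (Sum.inr (Sum.inl j)) else 0) +
    ∑ j : Fin m, (if (i.succ : Fin (m + 1)) ∈ HUBG_T m (Sum.inr (Sum.inr j)) then
      HUBG_w m D R a b (Sum.inr (Sum.inr j)) else 0)) = D - a i + b i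
  rw [e0, Finset.sum_congr rfl (fun j _ => e1 j), Finset.sum_congr rfl (fun j _ => e2 j)]
  simp only [sum_ite_eq, mem_univ, if_true]
  ring

theorem HUBG_val (m : ℕ) (D R : ℝ) (a b : Fin m → ℝ) (H : HUBG_H m D R a b) :
    (HUBG_S m D R a b H).val = (1 - D) * ∏ i, (1 - (D - a i + b i)) := by
  unfold TSys.val
  rw [Fin.prod_univ_succ, HUBG_p0,
    Finset.prod_congr rfl (fun i _ => by rw [HUBG_p1 m D R a b H i])]

/-- **HUBG.** The value of the general hub system. -/
theorem hubg (m : ℕ) (D R : ℝ) (y : Fin m → ℝ) (hm : 1 ≤ m) (hR0 : 0 < R) (hRD : R < D)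
    (hy : ∀ i, 0 < y i) (hsum : ∑ i, y i = ((m : ℝ) + 1) * D - 1)
    (hR : R ^ 2 = D * (((m : ℝ) + 1) * D - 1) - ∑ i, y i ^ 2) (hyR : ∀ i, y i + R ≤ D) :
    HasVal D ((1 - D) * ∏ i, (1 - D - (y i * (D - y i) / R - y i))) := by
  have H : HUBG_H m D R y (fun i => y i * (D - y i) / R) := by
    refine ⟨hsum, ?_, hy, ?_, hRD, ?_, ?_⟩
    · rw [← Finset.sum_div, div_eq_iff hR0.ne']
      have h1 : ∑ i, y i * (D - y i) = D * ∑ i, y i - ∑ i, y i ^ 2 := by
        rw [Finset.mul_sum, ← Finset.sum_sub_distrib]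
        exact Finset.sum_congr rfl fun i _ => by ring
      rw [h1, hsum, ← hR]
      ring
    · intro i
      rw [le_div_iff₀ hR0]
      exact mul_le_mul_of_nonneg_left (by linarith [hyR i]) (hy i).le
    · intro i
      field_simp
    · intro i
      linarith [hyR i]
  refine ⟨Unit ⊕ (Fin m ⊕ Fin m), inferInstance, inferInstance, m + 1,
    HUBG_S m D R y _ H, ?_⟩
  rw [HUBG_val]
  congr 1
  exact Finset.prod_congr rfl fun i _ => by ring

end Pool.Agent.Work.MP_1ce445_low
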